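import Pool.Agent.Helper11.EXS.Nu

/-! Module S, part 2 : Gaussian measures as products, marginals, rotations. -/

set_option autoImplicit false

namespace Pool.Agent.Helper87.EX

open MeasureTheory Complex
open scoped Classical

theorem pi_density {ι : Type} [Fintype ι] {X : Type} [MeasureSpace X]
    [SigmaFinite (volume : Measure X)] (f : X → ℝ) (hf : Integrable f volume) (h0 : ∀ x, 0 ≤ f x) :
    Measure.pi (fun _ : ι => (volume : Measure X).withDensity (fun x => ENNReal.ofReal (f x)))
      = (volume : Measure (ι → X)).withDensity (fun x => ENNReal.ofReal (∏ i, f (x i))) := by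
  haveI : IsFiniteMeasure ((volume : Measure X).withDensity (fun x => ENNReal.ofReal (f x))) :=
    isFiniteMeasure_withDensity_ofReal hf.2
  apply Measure.pi_eq
  intro s hs
  rw [withDensity_apply _ (MeasurableSet.univ_pi hs)]
  have hint : Integrable (fun x : ι → X => ∏ i, f (x i)) (volume : Measure (ι → X)) :=
    Integrable.fintype_prod (fun _ => hf)
  rw [← ofReal_integral_eq_lintegral_ofReal hint.integrableOn
    (Filter.Eventually.of_forall fun x => Finset.prod_nonneg fun i _ => h0 _)]
  have e1 : (volume : Measure (ι → X)).restrict (Set.univ.pi s)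
      = Measure.pi (fun i => (volume : Measure X).restrict (s i)) := by
    rw [volume_pi, Measure.restrict_pi_pi]
  rw [e1]
  have e2 := integral_fintype_prod_eq_prod (𝕜 := ℝ) (ι := ι) (E := fun _ => X) (fun _ x => f x)
    (μ := fun i => (volume : Measure X).restrict (s i))
  rw [e2, ENNReal.ofReal_prod_of_nonneg]
  · refine Finset.prod_congr rfl fun i _ => ?_
    rw [withDensity_apply _ (hs i), ← ofReal_integral_eq_lintegral_ofReal hf.integrableOn
      (Filter.Eventually.of_forall h0)]
  · intro i _
    exact integral_nonneg h0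

/-- the Gaussian weight of one column -/
noncomputable def w0 (v : Fin 3 → ℂ) : ℝ :=
  Real.exp (-(∑ i, Complex.normSq (v i))) / ∫ v : Fin 3 → ℂ, Real.exp (-(∑ i, Complex.normSq (v i)))

noncomputable def gam0 : Measure (Fin 3 → ℂ) :=
  (volume : Measure (Fin 3 → ℂ)).withDensity (fun v => ENNReal.ofReal (w0 v))

theorem int0 : Integrable (fun v : Fin 3 → ℂ => Real.exp (-(∑ i, Complex.normSq (v i)))) volume := by
  have h1 := exp_q_int (n := 1) one_pos
  have h2 := (volume_preserving_funUnique (Fin 1) (Fin 3 → ℂ)).symm
  have h3 := (h2.integrable_comp_emb (MeasurableEquiv.measurableEmbedding _)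
    (g := fun m : E 1 => Real.exp (-1 * q m))).2 h1
  refine h3.congr (Filter.Eventually.of_forall fun v => ?_)
  simp [q, Function.comp]

theorem int0_pos : 0 < ∫ v : Fin 3 → ℂ, Real.exp (-(∑ i, Complex.normSq (v i))) := by
  have := Real.exp_pos
  exact integral_exp_pos int0

theorem w0_nonneg (v : Fin 3 → ℂ) : 0 ≤ w0 v :=
  div_nonneg (Real.exp_pos _).le int0_pos.le

theorem w0_int : Integrable w0 volume := int0.div_const _

theorem rho_prod {n : ℕ} (m : E n) : rho m = ∏ j, w0 (m j) := by
  unfold rho w0 q Z
  rw [Finset.prod_div_distrib, ← Real.exp_sum, ← Finset.sum_neg_distrib]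
  congr 1
  unfold q
  simp_rw [← Finset.sum_neg_distrib, Real.exp_sum]
  have e2 := integral_fintype_prod_eq_prod (𝕜 := ℝ) (ι := Fin n) (E := fun _ => Fin 3 → ℂ)
    (fun _ v => ∏ i, Real.exp (-Complex.normSq (v i))) (μ := fun _ => volume)
  exact e2

theorem gam_pi (n : ℕ) : Measure.pi (fun _ : Fin n => gam0) = gam n := by
  unfold gam0 gam
  rw [pi_density w0 w0_int w0_nonneg]
  simp_rw [rho_prod]

instance : IsProbabilityMeasure gam0 := by
  constructor
  unfold gam0
  rw [withDensity_apply _ MeasurableSet.univ, Measure.restrict_univ,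
    ← ofReal_integral_eq_lintegral_ofReal w0_int (Filter.Eventually.of_forall w0_nonneg)]
  unfold w0
  rw [integral_div, div_self int0_pos.ne', ENNReal.ofReal_one]

theorem rho_nonneg {n : ℕ} (m : E n) : 0 ≤ rho m := by
  rw [rho_prod]
  exact Finset.prod_nonneg fun j _ => w0_nonneg _

theorem rho_int (n : ℕ) : Integrable (rho (n := n)) volume := by
  have : (rho : E n → ℝ) = fun m => ∏ j, w0 (m j) := funext rho_prod
  rw [this]
  exact Integrable.fintype_prod (fun _ => w0_int)

/-- the Gaussian measure of configurations is absolutely continuous -/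
theorem pi_gam_ac (k n : ℕ) :
    Measure.pi (fun _ : Fin k => gam n) ≪ (volume : Measure (Fin k → E n)) := by
  unfold gam
  rw [pi_density rho (rho_int n) rho_nonneg]
  exact withDensity_absolutelyContinuous _ _

/-- the first column of a standard Gaussian matrix is a standard Gaussian vector -/
theorem marg (j : Fin 3) : MeasurePreserving (fun (m : E 3) (_ : Fin 1) => m j) (gam 3) (gam 1) := by
  rw [← gam_pi 3, ← gam_pi 1]
  have h1 := measurePreserving_eval (fun _ : Fin 3 => gam0) j
  have h2 := (measurePreserving_funUnique gam0 (Fin 1)).symm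
  exact h2.comp h1

end Pool.Agent.Helper87.EX
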