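import Pool.Agent.Helper87.EX.C

/-! Module S, part 1 : normalisation of matrices, algebra and measurability. -/

set_option autoImplicit false

namespace Pool.Agent.Helper87.EX

open MeasureTheory Complex
open scoped Classical

/-- the matrix with columns `m 0, m 1, m 2` -/
def mat (m : E 3) : Matrix (Fin 3) (Fin 3) ℂ := fun i j => m j i

/-- normalisation of an invertible matrix to determinant one -/
noncomputable def nu (m : E 3) : G3 :=
  if h : (mat m).det ≠ 0 then
    ⟨((mat m).det ^ (-(1 / 3 : ℂ))) • mat m, by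
      rw [Matrix.det_smul, Fintype.card_fin, ← Complex.cpow_nat_mul]
      rw [show ((3 : ℕ) : ℂ) * (-(1 / 3 : ℂ)) = -1 by norm_num, Complex.cpow_neg_one]
      exact inv_mul_cancel₀ h⟩
  else 1

/-- the kernel of the smoothing of `h'` -/
noncomputable def F2 {k : ℕ} (h' : (Fin k → G3) → ℝ) (m : Fin k → E 3) : ℝ :=
  if ∀ i, (mat (m i)).det ≠ 0 then h' (fun i => nu (m i)) else 0

theorem mat_act (g : Matrix (Fin 3) (Fin 3) ℂ) (m : E 3) : mat (act g m) = g * mat m := by
  ext i j
  simp [mat, act, Matrix.mulVec, dotProduct, Matrix.mul_apply]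

theorem det_act (g : G3) (m : E 3) :
    (mat (act (g : Matrix (Fin 3) (Fin 3) ℂ) m)).det = (mat m).det := by
  rw [mat_act, Matrix.det_mul, g.det_coe, one_mul]

theorem nu_coe (m : E 3) (h : (mat m).det ≠ 0) :
    (nu m : Matrix (Fin 3) (Fin 3) ℂ) = ((mat m).det ^ (-(1 / 3 : ℂ))) • mat m := by
  unfold nu
  rw [dif_pos h]

theorem nu_act (g : G3) (m : E 3) (h : (mat m).det ≠ 0) :
    nu (act (g : Matrix (Fin 3) (Fin 3) ℂ) m) = g * nu m := by
  apply Subtype.ext
  have h2 : (mat (act (g : Matrix (Fin 3) (Fin 3) ℂ) m)).det ≠ 0 := by rwa [det_act]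
  have e1 := nu_coe _ h2
  have e2 := nu_coe _ h
  have e3 : ((g * nu m : G3) : Matrix (Fin 3) (Fin 3) ℂ)
      = (g : Matrix (Fin 3) (Fin 3) ℂ) * (nu m : Matrix (Fin 3) (Fin 3) ℂ) := rfl
  show (nu (act (g : Matrix (Fin 3) (Fin 3) ℂ) m) : Matrix (Fin 3) (Fin 3) ℂ)
    = ((g * nu m : G3) : Matrix (Fin 3) (Fin 3) ℂ)
  rw [e1, e3, e2, det_act, mat_act, Matrix.mul_smul]

theorem F2_le {k : ℕ} (h' : (Fin k → G3) → ℝ) {C : ℝ} (hC : ∀ x, |h' x| ≤ C) (m : Fin k → E 3) :
    |F2 h' m| ≤ C := by
  unfold F2
  split_ifs with h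
  · exact hC _
  · rw [abs_zero]
    exact (abs_nonneg _).trans (hC (fun _ => 1))

theorem F2_inv {k : ℕ} (h' : (Fin k → G3) → ℝ) (hL : LInv h') : Inv (F2 h') := by
  intro g m
  unfold F2
  by_cases h : ∀ i, (mat (m i)).det ≠ 0
  · have h2 : ∀ i, (mat (act (g : Matrix (Fin 3) (Fin 3) ℂ) (m i))).det ≠ 0 := by
      intro i
      rw [det_act]
      exact h i
    rw [if_pos h, if_pos h2]
    rw [← hL g (fun i => nu (m i))]
    congr 1
    funext i
    exact nu_act g (m i) (h i)
  · have h2 : ¬ ∀ i, (mat (act (g : Matrix (Fin 3) (Fin 3) ℂ) (m i))).det ≠ 0 := by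
      intro h3
      apply h
      intro i
      have := h3 i
      rwa [det_act] at this
    rw [if_neg h, if_neg h2]

theorem F2_alter {k : ℕ} (h' : (Fin k → G3) → ℝ) (hA : Alter h') : Alter (F2 h') := by
  intro i j m hij
  unfold F2
  by_cases h : ∀ l, (mat (m l)).det ≠ 0
  · have h2 : ∀ l, (mat (m (Equiv.swap i j l))).det ≠ 0 := fun l => h _
    rw [if_pos h, if_pos h2]
    exact hA i j (fun l => nu (m l)) hij
  · have h2 : ¬ ∀ l, (mat (m (Equiv.swap i j l))).det ≠ 0 := by
      intro h3
      apply h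
      intro l
      have := h3 (Equiv.swap i j l)
      rwa [Equiv.swap_apply_self] at this
    rw [if_neg h, if_neg h2, neg_zero]

theorem measurable_mat_apply (i j : Fin 3) : Measurable (fun m : E 3 => mat m i j) := by
  unfold mat
  exact (measurable_pi_apply i).comp (measurable_pi_apply j)

theorem continuous_mat : Continuous mat := by
  unfold mat
  fun_prop

theorem continuous_det_mat : Continuous (fun m : E 3 => (mat m).det) :=
  continuous_mat.matrix_det

theorem measurable_det_mat : Measurable (fun m : E 3 => (mat m).det) :=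
  continuous_det_mat.measurable

/-- the underlying array of a matrix of determinant one -/
def cG (g : G3) : Fin 3 → Fin 3 → ℂ := fun i j => (g : Matrix (Fin 3) (Fin 3) ℂ) i j

theorem inducing_cG : Topology.IsInducing cG := ⟨rfl⟩

theorem measurable_nu : @Measurable _ _ _ (borel G3) nu := by
  letI : MeasurableSpace G3 := borel G3
  haveI : BorelSpace G3 := ⟨rfl⟩
  have hemb : MeasurableSpace.comap cG inferInstance = borel G3 := by
    have : (inferInstance : MeasurableSpace (Fin 3 → Fin 3 → ℂ))
      = borel (Fin 3 → Fin 3 → ℂ) := BorelSpace.measurable_eq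
    rw [this]
    exact borel_comap.symm
  have key : Measurable (fun m : E 3 => cG (nu m)) := by
    have e : (fun m : E 3 => cG (nu m))
        = fun m => if (mat m).det ≠ 0 then
            (fun i j => ((mat m).det ^ (-(1 / 3 : ℂ))) * mat m i j) else cG 1 := by
      funext m
      by_cases h : (mat m).det ≠ 0
      · rw [if_pos h]
        funext i j
        show (nu m : Matrix (Fin 3) (Fin 3) ℂ) i j = _
        rw [nu_coe m h]
        rfl
      · rw [if_neg h]
        unfold nu
        rw [dif_neg h]
    rw [e]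
    refine Measurable.ite ?_ ?_ measurable_const
    · exact measurable_det_mat (measurableSet_singleton (0 : ℂ)).compl
    · exact measurable_pi_lambda _ fun i => measurable_pi_lambda _ fun j =>
        (measurable_det_mat.pow_const _).mul (measurable_mat_apply i j)
  intro s hs
  have hs' : MeasurableSet[MeasurableSpace.comap cG inferInstance] s := by
    rw [hemb]; exact hs
  obtain ⟨t, ht, rfl⟩ := hs'
  exact key ht

theorem measurable_F2 {k : ℕ} (h' : (Fin k → G3) → ℝ) (hc : Continuous h') :
    Measurable (F2 h') := by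
  letI : MeasurableSpace G3 := borel G3
  haveI : BorelSpace G3 := ⟨rfl⟩
  haveI : SecondCountableTopology G3 := by
    exact inducing_cG.secondCountableTopology
  unfold F2
  refine Measurable.ite ?_ ?_ measurable_const
  · have : {m : Fin k → E 3 | ∀ i, (mat (m i)).det ≠ 0}
        = ⋂ i, (fun m : Fin k → E 3 => (mat (m i)).det) ⁻¹' {0}ᶜ := by
      ext m
      simp
    rw [this]
    refine MeasurableSet.iInter fun i => ?_
    exact (measurable_det_mat.comp (measurable_pi_apply i)) (measurableSet_singleton (0 : ℂ)).compl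
  · exact hc.measurable.comp (measurable_pi_lambda _ fun i => measurable_nu.comp (measurable_pi_apply i))

theorem exp_q_int_pi {k n : ℕ} {c : ℝ} (hc : 0 < c) :
    Integrable (fun m : Fin k → E n => Real.exp (-c * ∑ i, q (m i))) volume := by
  have h := Integrable.fintype_prod (𝕜 := ℝ) (ι := Fin k) (E := E n)
    (μ := fun _ => (volume : Measure (E n)))
    (f := fun _ (m : E n) => Real.exp (-c * q m)) (fun _ => exp_q_int hc)
  refine h.congr (Filter.Eventually.of_forall fun m => ?_)
  simp only
  rw [← Real.exp_sum, Finset.mul_sum]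

theorem F2_GI {k : ℕ} (h' : (Fin k → G3) → ℝ) (hc : Continuous h') {C : ℝ} (hC : ∀ x, |h' x| ≤ C) :
    GI (F2 h') := by
  intro c hc0
  refine (exp_q_int_pi hc0).bdd_mul (c := C) (measurable_F2 h' hc).aestronglyMeasurable ?_
  exact Filter.Eventually.of_forall fun m => F2_le h' hC m

end Pool.Agent.Helper87.EX
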