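import Pool.Agent.Helper11.EXS.Dens

/-! Module S, part 3 : rotations of the columns. -/

set_option autoImplicit false

namespace Pool.Agent.Helper87.EX

open MeasureTheory Complex
open scoped Classical

theorem q_nonneg {n : ℕ} (m : E n) : 0 ≤ q m :=
  Finset.sum_nonneg fun _ _ => Finset.sum_nonneg fun _ _ => Complex.normSq_nonneg _

theorem q_eq_zero {n : ℕ} {m : E n} (h : q m = 0) : m = 0 := by
  unfold q at h
  rw [Finset.sum_eq_zero_iff_of_nonneg
    (fun _ _ => Finset.sum_nonneg fun _ _ => Complex.normSq_nonneg _)] at h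
  funext j i
  have h1 := h j (Finset.mem_univ _)
  rw [Finset.sum_eq_zero_iff_of_nonneg (fun _ _ => Complex.normSq_nonneg _)] at h1
  exact Complex.normSq_eq_zero.1 (h1 i (Finset.mem_univ _))

theorem haar_E (n : ℕ) : (volume : Measure (E n)).IsAddHaarMeasure := by
  haveI h1 : (volume : Measure ℂ).IsAddHaarMeasure := inferInstance
  haveI h2 : (volume : Measure (Fin 3 → ℂ)).IsAddHaarMeasure := by
    rw [volume_pi]
    infer_instance
  exact Measure.pi.isAddHaarMeasure (fun _ : Fin n => (volume : Measure (Fin 3 → ℂ)))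

/-- a real linear map preserving `q` preserves the Lebesgue measure -/
theorem mp_of_q {n : ℕ} (L : E n →ₗ[ℝ] E n) (hL : ∀ m, q (L m) = q m) :
    MeasurePreserving L volume volume := by
  have hinj : Function.Injective L := by
    rw [injective_iff_map_eq_zero]
    intro m hm
    apply q_eq_zero
    rw [← hL m, hm]
    simp [q]
  have hdet : LinearMap.det L ≠ 0 := by
    have hu : IsUnit L := (LinearMap.isUnit_iff_ker_eq_bot L).2 (LinearMap.ker_eq_bot.2 hinj)
    exact (hu.map LinearMap.det).ne_zero
  haveI := haar_E n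
  have hmap := Measure.map_linearMap_addHaar_eq_smul_addHaar (volume : Measure (E n)) hdet
  have hmeas : Measurable L := (LinearMap.continuous_of_finiteDimensional L).measurable
  have h1 : ∫ m : E n, Real.exp (-q m) = |(LinearMap.det L)⁻¹| * ∫ m : E n, Real.exp (-q m) := by
    have e1 : ∫ m : E n, Real.exp (-q m) ∂(Measure.map L volume)
        = ∫ m : E n, Real.exp (-q m) := by
      rw [integral_map hmeas.aemeasurable]
      · simp_rw [hL]
      · apply Continuous.aestronglyMeasurable
        unfold q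
        fun_prop
    rw [hmap, integral_smul_measure, ENNReal.toReal_ofReal (abs_nonneg _), smul_eq_mul] at e1
    exact e1.symm
  have h2 : |(LinearMap.det L)⁻¹| = 1 := by
    have hZ := Z_pos n
    unfold Z at hZ
    have h3 : (|(LinearMap.det L)⁻¹| - 1) * ∫ m : E n, Real.exp (-q m) = 0 := by
      rw [sub_mul, one_mul, ← h1, sub_self]
    rcases mul_eq_zero.1 h3 with h4 | h4
    · linarith
    · exact absurd h4 hZ.ne'
  refine ⟨hmeas, ?_⟩
  rw [hmap, h2, ENNReal.ofReal_one, one_smul]

theorem mp_gam {n : ℕ} (L : E n → E n) (hL : ∀ m, q (L m) = q m)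
    (h : MeasurePreserving L volume volume) : MeasurePreserving L (gam n) (gam n) := by
  refine ⟨h.measurable, ?_⟩
  have hr : Measurable (fun m : E n => ENNReal.ofReal (rho m)) := by
    apply Measurable.ennreal_ofReal
    apply Continuous.measurable
    unfold rho q
    fun_prop
  ext s hs
  rw [Measure.map_apply h.measurable hs]
  unfold gam
  rw [withDensity_apply _ hs, withDensity_apply _ (h.measurable hs),
    ← h.setLIntegral_comp_preimage hs hr]
  have : ∀ m, rho (L m) = rho m := fun m => by unfold rho; rw [hL]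
  simp_rw [this]

theorem rot (w : Fin 3 → ℂ) (hw : w ≠ 0) : ∃ (c : ℂ) (L : E 3 → E 3), c ≠ 0 ∧
    MeasurePreserving L (gam 3) (gam 3) ∧ ∀ m, (mat m).mulVec w = c • (L m 0) := by
  set u : EuclideanSpace ℂ (Fin 3) := WithLp.toLp 2 (fun i => star (w i)) with hu
  have hu0 : u ≠ 0 := by
    intro h
    apply hw
    funext i
    have : u i = 0 := by rw [h]; rfl
    rw [hu] at this
    simpa using this
  have hr : ‖u‖ ≠ 0 := norm_ne_zero_iff.2 hu0
  set v : Fin 3 → EuclideanSpace ℂ (Fin 3) := fun _ => ((‖u‖⁻¹ : ℝ) : ℂ) • u with hv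
  have hvn : ‖((‖u‖⁻¹ : ℝ) : ℂ) • u‖ = 1 := by
    rw [norm_smul, Complex.norm_real, Real.norm_of_nonneg (inv_nonneg.2 (norm_nonneg _)),
      inv_mul_cancel₀ hr]
  obtain ⟨b, hb⟩ := Orthonormal.exists_orthonormalBasis_extension_of_card_eq (𝕜 := ℂ)
    (E := EuclideanSpace ℂ (Fin 3)) (ι := Fin 3) (by simp) (v := v) (s := {0}) (by
      refine ⟨fun i => ?_, fun i j hij => ?_⟩
      · exact hvn
      · exact absurd (Subsingleton.elim i j) hij)
  have hb0 : b 0 = ((‖u‖⁻¹ : ℝ) : ℂ) • u := hb 0 rfl
  let L : E 3 →ₗ[ℝ] E 3 :=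
    { toFun := fun m j i => ∑ l, star (b j l) * m l i
      map_add' := by
        intro m m'
        funext j i
        simp [mul_add, Finset.sum_add_distrib]
      map_smul' := by
        intro c m
        funext j i
        simp only [Pi.smul_apply, RingHom.id_apply, Finset.smul_sum, Complex.real_smul]
        exact Finset.sum_congr rfl fun l _ => by ring }
  have hLq : ∀ m, q (L m) = q m := by
    intro m
    unfold q
    rw [Finset.sum_comm, Finset.sum_comm (f := fun j i => Complex.normSq (m j i))]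
    refine Finset.sum_congr rfl fun i _ => ?_
    set x : EuclideanSpace ℂ (Fin 3) := WithLp.toLp 2 (fun l => m l i) with hx
    have h1 := b.sum_sq_norm_inner_right x
    have h2 : ∀ j, Complex.normSq (L m j i) = ‖inner ℂ (b j) x‖ ^ 2 := by
      intro j
      rw [Complex.normSq_eq_norm_sq]
      congr 2
      rw [EuclideanSpace.inner_eq_star_dotProduct]
      simp only [dotProduct, hx]
      show ∑ l, star (b j l) * m l i = _
      refine Finset.sum_congr rfl fun l _ => ?_
      rw [mul_comm]
      rfl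
    simp_rw [h2]
    rw [h1, EuclideanSpace.norm_sq_eq]
    refine Finset.sum_congr rfl fun l _ => ?_
    rw [Complex.normSq_eq_norm_sq]
  refine ⟨(‖u‖ : ℂ), L, by exact_mod_cast hr, mp_gam L hLq (mp_of_q L hLq), ?_⟩
  intro m
  funext i
  show ∑ l, mat m i l * w l = (‖u‖ : ℂ) * ∑ l, star (b 0 l) * m l i
  rw [Finset.mul_sum]
  refine Finset.sum_congr rfl fun l _ => ?_
  have h3 : star (b 0 l) = ((‖u‖⁻¹ : ℝ) : ℂ) * w l := by
    rw [hb0]
    simp [hu]
  rw [h3]
  have h4 : (‖u‖ : ℂ) ≠ 0 := by exact_mod_cast hr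
  unfold mat
  push_cast
  field_simp

end Pool.Agent.Helper87.EX
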