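import Pool.Agent.Helper11.EXS.Rot
import Pool.Agent.Helper87.EX.Y

/-! Module S, part 4 : smoothing does not change the coboundary. -/

set_option autoImplicit false

namespace Pool.Agent.Helper87.EX

open MeasureTheory Complex
open scoped Classical

/-- the bounded function of the proof -/
noncomputable def GG (x : Fin 6 → G3) (m : Fin 6 → E 3) (w : Fin 6 → E 1) : ℝ :=
  dd Psi (fun i => ((x i : Matrix (Fin 3) (Fin 3) ℂ) * mat (m i)).mulVec (w i 0))

theorem dd_meas {n : ℕ} {X : Type} [MeasurableSpace X] {F : (Fin n → X) → ℝ} (hF : Measurable F) :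
    Measurable (dd F) := by
  unfold dd
  refine Finset.measurable_fun_sum _ fun i _ => ?_
  refine Measurable.const_mul ?_ _
  exact hF.comp (measurable_pi_lambda _ fun j => measurable_pi_apply _)

theorem GG_meas (x : Fin 6 → G3) :
    Measurable (fun p : (Fin 6 → E 3) × (Fin 6 → E 1) => GG x p.1 p.2) := by
  unfold GG
  refine (dd_meas Psi_meas).comp ?_
  apply Continuous.measurable
  unfold mat
  fun_prop

theorem gen_smul {n : ℕ} (v : Fin n → Fin 3 → ℂ) (hv : Gen v) (c : Fin n → ℂ) (hc : ∀ i, c i ≠ 0) :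
    Gen (fun i => c i • v i) := by
  intro i j k hij hik hjk
  have h := hv i j k hij hik hjk
  have e : dt (c i • v i) (c j • v j) (c k • v k) = c i * c j * c k * dt (v i) (v j) (v k) := by
    unfold dt
    simp only [Pi.smul_apply, smul_eq_mul]
    ring
  show dt (c i • v i) (c j • v j) (c k • v k) ≠ 0
  rw [e]
  exact mul_ne_zero (mul_ne_zero (mul_ne_zero (hc i) (hc j)) (hc k)) h

theorem dt_mulVec (g : Matrix (Fin 3) (Fin 3) ℂ) (a b c : Fin 3 → ℂ) :
    dt (g.mulVec a) (g.mulVec b) (g.mulVec c) = g.det * dt a b c := by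
  unfold dt
  rw [Matrix.det_fin_three]
  simp only [Matrix.mulVec, dotProduct, Fin.sum_univ_three]
  ring

/-- almost every configuration of vectors moved by elements of the group is generic -/
theorem ae_gen_act (k : ℕ) (x : Fin k → G3) :
    ∀ᵐ w : Fin k → E 1 ∂(Measure.pi (fun _ : Fin k => gam 1)),
      Gen (fun i => ((x i : Matrix (Fin 3) (Fin 3) ℂ)).mulVec (w i 0)) := by
  apply (pi_gam_ac k 1).ae_le
  have h : MeasurePreserving (fun (w : Fin k → E 1) i => act (x i : Matrix (Fin 3) (Fin 3) ℂ) (w i))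
      (volume : Measure (Fin k → E 1)) (volume : Measure (Fin k → E 1)) :=
    measurePreserving_pi _ _ (fun i => act_mp (x i))
  exact h.quasiMeasurePreserving.ae (ae_Gen k)

/-- almost every triple of columns is invertible -/
theorem ae_det : ∀ᵐ m : E 3 ∂volume, (mat m).det ≠ 0 := by
  have h := ae_Gen 3
  have h2 : MeasurePreserving (fun (m : Fin 3 → (Fin 3 → ℂ)) (i : Fin 3) (_ : Fin 1) => m i)
      (volume : Measure (Fin 3 → (Fin 3 → ℂ))) (volume : Measure (Fin 3 → E 1)) :=
    measurePreserving_pi (fun _ => (volume : Measure (Fin 3 → ℂ))) (fun _ => (volume : Measure (E 1)))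
      (fun _ => (volume_preserving_funUnique (Fin 1) (Fin 3 → ℂ)).symm)
  have h3 := h2.quasiMeasurePreserving.ae h
  filter_upwards [h3] with m hm
  have h4 := hm 0 1 2 (by decide) (by decide) (by decide)
  have e : (mat m).det = dt (m 0) (m 1) (m 2) := by
    rw [Matrix.det_fin_three]
    unfold mat dt
    ring
  rw [e]
  exact h4

theorem ae_det_pi (k : ℕ) : ∀ᵐ m : Fin k → E 3 ∂(Measure.pi (fun _ : Fin k => gam 3)),
    ∀ i, (mat (m i)).det ≠ 0 := by
  apply (pi_gam_ac k 3).ae_le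
  show ∀ᵐ m : Fin k → E 3 ∂volume, ∀ i, (mat (m i)).det ≠ 0
  rw [ae_all_iff]
  intro i
  exact (Measure.quasiMeasurePreserving_eval (fun _ : Fin k => (volume : Measure (E 3))) i).ae ae_det

theorem ae_w (w : Fin 6 → E 1) (hw : Gen (fun i => w i 0)) (i : Fin 6) : w i 0 ≠ 0 := by
  intro h
  obtain ⟨j, k, hij, hik, hjk⟩ : ∃ j k : Fin 6, i ≠ j ∧ i ≠ k ∧ j ≠ k := by
    fin_cases i
    · exact ⟨1, 2, by decide, by decide, by decide⟩
    · exact ⟨0, 2, by decide, by decide, by decide⟩
    · exact ⟨0, 1, by decide, by decide, by decide⟩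
    · exact ⟨0, 1, by decide, by decide, by decide⟩
    · exact ⟨0, 1, by decide, by decide, by decide⟩
    · exact ⟨0, 1, by decide, by decide, by decide⟩
  apply hw i j k hij hik hjk
  show dt (w i 0) (w j 0) (w k 0) = 0
  rw [h]
  unfold dt
  simp

/-- for fixed invertible matrices, the inner integral is the coboundary of `HH F1` -/
theorem inner_w (x : Fin 6 → G3) (m : Fin 6 → E 3) (hm : ∀ i, (mat (m i)).det ≠ 0) :
    dd (HH F1) (fun i => x i * nu (m i))
      = ∫ w : Fin 6 → E 1, GG x m w ∂(Measure.pi (fun _ : Fin 6 => gam 1)) := by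
  rw [HH_dd F1_GI]
  unfold HH
  refine integral_congr_ae ?_
  filter_upwards [ae_gen_act 6 (fun i => x i * nu (m i))] with w hw
  have hc : ∀ i, ((mat (m i)).det ^ (-(1 / 3 : ℂ))) ≠ 0 := fun i => by
    rw [Ne, Complex.cpow_eq_zero_iff]
    exact fun h => hm i h.1
  have e1 : ∀ i, ((x i : Matrix (Fin 3) (Fin 3) ℂ) * mat (m i)).mulVec (w i 0)
      = ((mat (m i)).det ^ (-(1 / 3 : ℂ)))⁻¹ •
        (((x i * nu (m i) : G3) : Matrix (Fin 3) (Fin 3) ℂ)).mulVec (w i 0) := by
    intro i
    have e2 : ((x i * nu (m i) : G3) : Matrix (Fin 3) (Fin 3) ℂ)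
        = ((mat (m i)).det ^ (-(1 / 3 : ℂ))) • ((x i : Matrix (Fin 3) (Fin 3) ℂ) * mat (m i)) := by
      have e3 : ((x i * nu (m i) : G3) : Matrix (Fin 3) (Fin 3) ℂ)
        = (x i : Matrix (Fin 3) (Fin 3) ℂ) * (nu (m i) : Matrix (Fin 3) (Fin 3) ℂ) := rfl
      rw [e3, nu_coe _ (hm i), Matrix.mul_smul]
    rw [e2, Matrix.smul_mulVec, smul_smul, inv_mul_cancel₀ (hc i), one_smul]
  have e4 : GG x m w = dd Psi (fun i => (((x i * nu (m i) : G3) : Matrix (Fin 3) (Fin 3) ℂ)).mulVec
      (w i 0)) := by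
    unfold GG
    simp_rw [e1]
    exact T_scale _ hw _ (fun i => inv_ne_zero (hc i))
  rw [e4]
  rfl

/-- for fixed non zero vectors, the integral over the matrices -/
theorem inner_m (x : Fin 6 → G3) (w : Fin 6 → E 1) (hw : ∀ i, w i 0 ≠ 0) :
    ∫ m : Fin 6 → E 3, GG x m w ∂(Measure.pi (fun _ : Fin 6 => gam 3)) = HH (dd F1) x := by
  choose c L hc hL hcL using fun i => rot (w i 0) (hw i)
  have hPi : MeasurePreserving (fun (m : Fin 6 → E 3) i => L i (m i))
      (Measure.pi (fun _ : Fin 6 => gam 3)) (Measure.pi (fun _ : Fin 6 => gam 3)) := by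
    haveI := gam_prob 3
    exact measurePreserving_pi _ _ hL
  have hM : MeasurePreserving (fun (m : Fin 6 → E 3) i => (fun _ : Fin 1 => m i 0))
      (Measure.pi (fun _ : Fin 6 => gam 3)) (Measure.pi (fun _ : Fin 6 => gam 1)) := by
    haveI := gam_prob 3
    haveI := gam_prob 1
    exact measurePreserving_pi _ _ (fun _ => marg 0)
  have hT := hM.comp hPi
  have hmeas : Measurable (fun v : Fin 6 → E 1 =>
      dd Psi (fun i => ((x i : Matrix (Fin 3) (Fin 3) ℂ)).mulVec (v i 0))) := by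
    refine (dd_meas Psi_meas).comp ?_
    apply Continuous.measurable
    fun_prop
  have e0 : HH (dd F1) x = ∫ v : Fin 6 → E 1,
      dd Psi (fun i => ((x i : Matrix (Fin 3) (Fin 3) ℂ)).mulVec (v i 0))
      ∂(Measure.pi (fun _ : Fin 6 => gam 1)) := rfl
  rw [e0, ← hT.map_eq, integral_map hT.measurable.aemeasurable hmeas.aestronglyMeasurable]
  refine integral_congr_ae ?_
  have hgen := hT.quasiMeasurePreserving.ae (ae_gen_act 6 x)
  filter_upwards [hgen] with m hm
  unfold GG
  have e1 : ∀ i, ((x i : Matrix (Fin 3) (Fin 3) ℂ) * mat (m i)).mulVec (w i 0)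
      = c i • ((x i : Matrix (Fin 3) (Fin 3) ℂ)).mulVec (L i (m i) 0) := by
    intro i
    rw [← Matrix.mulVec_mulVec, hcL i (m i), Matrix.mulVec_smul]
  simp_rw [e1]
  exact T_scale _ hm _ hc

theorem smooth (h' : (Fin 5 → G3) → ℝ) (hc : Continuous h') {C : ℝ} (hC : ∀ x, |h' x| ≤ C)
    (hb : ∀ x : Fin 6 → G3, dd h' x = dd (HH F1) x) (x : Fin 6 → G3) :
    dd (HH (F2 h')) x = dd (HH F1) x := by
  haveI := gam_prob 3
  haveI := gam_prob 1
  rw [HH_dd (F2_GI h' hc hC), HH_dd F1_GI]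
  have e1 : HH (dd (F2 h')) x = ∫ m : Fin 6 → E 3, ∫ w : Fin 6 → E 1, GG x m w
      ∂(Measure.pi (fun _ : Fin 6 => gam 1)) ∂(Measure.pi (fun _ : Fin 6 => gam 3)) := by
    unfold HH
    refine integral_congr_ae ?_
    filter_upwards [ae_det_pi 6] with m hm
    rw [← inner_w x m hm, ← hb]
    unfold dd
    refine Finset.sum_congr rfl fun i _ => ?_
    congr 1
    unfold F2
    have h2 : ∀ j, (mat (act (x (Fin.succAbove i j) : Matrix (Fin 3) (Fin 3) ℂ)
        (m (Fin.succAbove i j)))).det ≠ 0 := by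
      intro j
      rw [det_act]
      exact hm _
    rw [if_pos h2]
    congr 1
    funext j
    exact nu_act _ _ (hm _)
  have hint : Integrable (Function.uncurry (GG x))
      ((Measure.pi (fun _ : Fin 6 => gam 3)).prod (Measure.pi (fun _ : Fin 6 => gam 1))) := by
    obtain ⟨K, hK0, hK⟩ := T_bdd
    have hms := GG_meas x
    refine Integrable.of_bound (C := K) hms.aestronglyMeasurable ?_
    have hset : MeasurableSet {p : (Fin 6 → E 3) × (Fin 6 → E 1) |
        ‖Function.uncurry (GG x) p‖ ≤ K} := measurableSet_le hms.norm measurable_const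
    rw [Measure.ae_prod_iff_ae_ae hset]
    filter_upwards [ae_det_pi 6] with m hm
    filter_upwards [ae_gen_act 6 (fun i => x i * nu (m i))] with w hw
    have hcc : ∀ i, ((mat (m i)).det ^ (-(1 / 3 : ℂ))) ≠ 0 := fun i => by
      rw [Ne, Complex.cpow_eq_zero_iff]
      exact fun h => hm i h.1
    show |GG x m w| ≤ K
    unfold GG
    apply hK
    have e5 : (fun i => ((x i : Matrix (Fin 3) (Fin 3) ℂ) * mat (m i)).mulVec (w i 0))
        = fun i => ((mat (m i)).det ^ (-(1 / 3 : ℂ)))⁻¹ •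
          (((x i * nu (m i) : G3) : Matrix (Fin 3) (Fin 3) ℂ)).mulVec (w i 0) := by
      funext i
      have e2 : ((x i * nu (m i) : G3) : Matrix (Fin 3) (Fin 3) ℂ)
          = ((mat (m i)).det ^ (-(1 / 3 : ℂ))) •
            ((x i : Matrix (Fin 3) (Fin 3) ℂ) * mat (m i)) := by
        have e3 : ((x i * nu (m i) : G3) : Matrix (Fin 3) (Fin 3) ℂ)
          = (x i : Matrix (Fin 3) (Fin 3) ℂ) * (nu (m i) : Matrix (Fin 3) (Fin 3) ℂ) := rfl
        rw [e3, nu_coe _ (hm i), Matrix.mul_smul]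
      rw [e2, Matrix.smul_mulVec, smul_smul, inv_mul_cancel₀ (hcc i), one_smul]
    rw [e5]
    exact gen_smul _ hw _ (fun i => inv_ne_zero (hcc i))
  rw [e1, integral_integral_swap hint]
  have hgen := ae_gen_act 6 (fun _ => 1)
  have e6 : ∀ᵐ w : Fin 6 → E 1 ∂(Measure.pi (fun _ : Fin 6 => gam 1)),
      ∫ m : Fin 6 → E 3, GG x m w ∂(Measure.pi (fun _ : Fin 6 => gam 3)) = HH (dd F1) x := by
    filter_upwards [hgen] with w hw
    apply inner_m
    apply ae_w
    intro i j k hij hik hjk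
    have := hw i j k hij hik hjk
    simpa using this
  rw [integral_congr_ae e6]
  simp

end Pool.Agent.Helper87.EX
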